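import Pool.Agent.helper84.DM.Defs
import Pool.Agent.helper9.Tors.Divs

/-! # DM project, module DV: divisor bound and the Dirichlet series of `ζ²` -/

set_option autoImplicit false

open Complex Metric MeasureTheory

namespace Pool.Agent.helper84.DM

theorem divisor_bound (δ : ℝ) (hδ : 0 < δ) : ∃ C : ℝ, 0 < C ∧ ∀ n : ℕ, 1 ≤ n →
    d n ≤ C * (n : ℝ) ^ δ := by
  obtain ⟨C, hC, h⟩ := Pool.Agent.helper9.Tors.divisor_bound δ hδ
  exact ⟨C, hC, fun n hn => h n (by omega)⟩

theorem d_summable (s : ℝ) (hs : 1 < s) : Summable (fun n : ℕ => d n * (n : ℝ) ^ (-s)) := by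
  obtain ⟨C, hC, h⟩ := divisor_bound ((s - 1) / 2) (by linarith)
  have h1 : Summable (fun n : ℕ => C * (n : ℝ) ^ (-((s + 1) / 2))) := by
    refine Summable.mul_left _ ?_
    rw [Real.summable_nat_rpow]
    linarith
  refine Summable.of_nonneg_of_le (fun n => ?_) (fun n => ?_) h1
  · exact mul_nonneg (Nat.cast_nonneg _) (Real.rpow_nonneg (Nat.cast_nonneg _) _)
  · rcases Nat.eq_zero_or_pos n with rfl | hn
    · have : d 0 = 0 := by simp [d]
      rw [this, zero_mul]
      exact mul_nonneg hC.le (Real.rpow_nonneg (Nat.cast_nonneg _) _)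
    · have hn' : (0 : ℝ) < n := by exact_mod_cast hn
      calc d n * (n : ℝ) ^ (-s) ≤ (C * (n : ℝ) ^ ((s - 1) / 2)) * (n : ℝ) ^ (-s) :=
            mul_le_mul_of_nonneg_right (h n hn) (Real.rpow_nonneg hn'.le _)
        _ = C * (n : ℝ) ^ (-((s + 1) / 2)) := by
            rw [mul_assoc, ← Real.rpow_add hn']
            congr 2
            ring

theorem zeta_sq (s : ℂ) (hs : 1 < s.re) :
    riemannZeta s ^ 2 = ∑' n : ℕ, (d n : ℂ) * (n : ℂ) ^ (-s) := by
  have h := LSeries_convolution' (f := 1) (g := 1) (LSeriesSummable_one_iff.2 hs)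
    (LSeriesSummable_one_iff.2 hs)
  rw [LSeries_one_eq_riemannZeta hs] at h
  rw [pow_two, ← h]
  unfold LSeries
  refine tsum_congr fun n => ?_
  rw [LSeries.term_def₀ (LSeries.convolution_map_zero _ _)]
  congr 1
  rw [LSeries.convolution_def]
  simp [d, ← Nat.map_div_right_divisors]

end Pool.Agent.helper84.DM
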