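import Pool.Agent.helper84.DM.Defs

/-! # DM project, module KC: kernel integral and Young inequality -/

set_option autoImplicit false

open Complex Metric MeasureTheory

namespace Pool.Agent.helper84.DM

theorem KC_norm {T c : ℝ} (hc : c ≠ 0) (hT : 0 < T) (v : ℝ) :
    ‖ker T c v‖ ≤ T ^ c * Real.exp (c ^ 2) / |c| * Real.exp (-v ^ 2) := by
  unfold ker
  rw [norm_div, norm_mul, Complex.norm_cpow_eq_rpow_re_of_pos hT, Complex.norm_exp]
  have e1 : ((c : ℂ) + v * I).re = c := by simp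
  have e2 : (((c : ℂ) + v * I) ^ 2).re = c ^ 2 - v ^ 2 := by
    rw [pow_two, Complex.mul_re]
    simp
    ring
  have e3 : |c| ≤ ‖(c : ℂ) + v * I‖ := by
    have := Complex.abs_re_le_norm ((c : ℂ) + v * I)
    rwa [e1] at this
  have hc' : 0 < |c| := abs_pos.2 hc
  rw [e1, e2, Real.exp_sub, Real.exp_neg]
  have hA : 0 ≤ T ^ c * (Real.exp (c ^ 2) / Real.exp (v ^ 2)) := by positivity
  calc T ^ c * (Real.exp (c ^ 2) / Real.exp (v ^ 2)) / ‖(c : ℂ) + v * I‖
      ≤ T ^ c * (Real.exp (c ^ 2) / Real.exp (v ^ 2)) / |c| :=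
        div_le_div_of_nonneg_left hA hc' e3
    _ = T ^ c * Real.exp (c ^ 2) / |c| * (Real.exp (v ^ 2))⁻¹ := by ring

theorem KC_ne {c : ℝ} (hc : c ≠ 0) (v : ℝ) : (c : ℂ) + v * I ≠ 0 := by
  intro h
  have := congrArg Complex.re h
  simp at this
  exact hc this

theorem KC_cont {T c : ℝ} (hc : c ≠ 0) (hT : 0 < T) : Continuous (fun v => ker T c v) := by
  unfold ker
  refine Continuous.div ?_ (by fun_prop) (KC_ne hc)
  refine Continuous.mul ?_ (by fun_prop)
  refine Continuous.const_cpow (by fun_prop) (Or.inl ?_)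
  exact_mod_cast hT.ne'

theorem ker_int {T c V : ℝ} (hc : c ≠ 0) (hT : 0 < T) (hV : 0 ≤ V) :
    ∫ v in (-V)..V, ‖ker T c v‖ ≤ 2 * T ^ c * Real.exp (c ^ 2) / |c| := by
  have hc' : 0 < |c| := abs_pos.2 hc
  have hint : Integrable (fun v : ℝ => Real.exp (-v ^ 2)) := by
    have := integrable_exp_neg_mul_sq (b := 1) one_pos
    simpa using this
  have hle : -V ≤ V := by linarith
  have h1 : ∫ v in (-V)..V, ‖ker T c v‖ ≤
      ∫ v in (-V)..V, T ^ c * Real.exp (c ^ 2) / |c| * Real.exp (-v ^ 2) := by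
    refine intervalIntegral.integral_mono_on hle ?_ ?_ (fun v _ => KC_norm hc hT v)
    · exact (KC_cont hc hT).norm.intervalIntegrable _ _
    · exact (Continuous.intervalIntegrable (by fun_prop) _ _)
  refine h1.trans ?_
  rw [intervalIntegral.integral_const_mul]
  have h2 : ∫ v in (-V)..V, Real.exp (-v ^ 2) ≤ 2 := by
    rw [intervalIntegral.integral_of_le hle]
    have h3 : ∫ v in Set.Ioc (-V) V, Real.exp (-v ^ 2) ≤ ∫ v : ℝ, Real.exp (-v ^ 2) :=
      setIntegral_le_integral hint (Filter.Eventually.of_forall fun v => (Real.exp_pos _).le)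
    have h4 : ∫ v : ℝ, Real.exp (-v ^ 2) = Real.sqrt Real.pi := by
      have := integral_gaussian 1
      simpa using this
    have h5 : Real.sqrt Real.pi ≤ 2 := by
      rw [Real.sqrt_le_left (by norm_num)]
      have := Real.pi_le_four
      linarith
    linarith
  have hA : 0 ≤ T ^ c * Real.exp (c ^ 2) / |c| := by positivity
  calc T ^ c * Real.exp (c ^ 2) / |c| * ∫ v in (-V)..V, Real.exp (-v ^ 2)
      ≤ T ^ c * Real.exp (c ^ 2) / |c| * 2 := mul_le_mul_of_nonneg_left h2 hA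
    _ = 2 * T ^ c * Real.exp (c ^ 2) / |c| := by ring

/-- Cauchy-Schwarz with a weight -/
theorem KC_cs {f g : ℝ → ℝ} (hf : Continuous f) (hg : Continuous g) (hf0 : ∀ v, 0 ≤ f v)
    {a b : ℝ} (hab : a ≤ b) :
    (∫ v in a..b, g v * f v) ^ 2 ≤ (∫ v in a..b, f v) * ∫ v in a..b, g v ^ 2 * f v := by
  set A := ∫ v in a..b, f v with hA
  set B := ∫ v in a..b, g v * f v with hB
  set D := ∫ v in a..b, g v ^ 2 * f v with hD
  have hA0 : 0 ≤ A := intervalIntegral.integral_nonneg hab (fun v _ => hf0 v)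
  have key : ∀ x : ℝ, 0 ≤ D * (x * x) + (-(2 * B)) * x + A := by
    intro x
    have h1 : 0 ≤ ∫ v in a..b, (x * g v - 1) ^ 2 * f v :=
      intervalIntegral.integral_nonneg hab (fun v _ => mul_nonneg (sq_nonneg _) (hf0 v))
    have h2 : ∫ v in a..b, (x * g v - 1) ^ 2 * f v = D * (x * x) + (-(2 * B)) * x + A := by
      have e : ∀ v, (x * g v - 1) ^ 2 * f v =
          (x * x) * (g v ^ 2 * f v) + ((-(2 * x)) * (g v * f v) + f v) := by intro v; ring
      simp only [e]
      rw [intervalIntegral.integral_add, intervalIntegral.integral_add,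
        intervalIntegral.integral_const_mul, intervalIntegral.integral_const_mul,
        ← hA, ← hB, ← hD]
      · ring
      all_goals exact Continuous.intervalIntegrable (by fun_prop) _ _
    rwa [h2] at h1
  have := discrim_le_zero key
  unfold discrim at this
  nlinarith

theorem young {P κ : ℝ → ℂ} (hP : Continuous P) (hκ : Continuous κ) {A B V : ℝ} (hAB : A ≤ B)
    (hV : 0 ≤ V) :
    ∫ t in A..B, ‖∫ v in (-V)..V, P (t + v) * κ v‖ ^ 2
      ≤ (∫ v in (-V)..V, ‖κ v‖) ^ 2 * ∫ u in (A - V)..(B + V), ‖P u‖ ^ 2 := by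
  have hVV : -V ≤ V := by linarith
  set K := ∫ v in (-V)..V, ‖κ v‖ with hK
  have hK0 : 0 ≤ K := intervalIntegral.integral_nonneg hVV (fun v _ => norm_nonneg _)
  -- pointwise
  have h1 : ∀ t, ‖∫ v in (-V)..V, P (t + v) * κ v‖ ^ 2 ≤
      K * ∫ v in (-V)..V, ‖P (t + v)‖ ^ 2 * ‖κ v‖ := by
    intro t
    have a1 : ‖∫ v in (-V)..V, P (t + v) * κ v‖ ≤ ∫ v in (-V)..V, ‖P (t + v)‖ * ‖κ v‖ := by
      refine (intervalIntegral.norm_integral_le_integral_norm hVV).trans (le_of_eq ?_)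
      simp only [norm_mul]
    have a2 := KC_cs (f := fun v => ‖κ v‖) (g := fun v => ‖P (t + v)‖) hκ.norm
      (by fun_prop) (fun v => norm_nonneg _) hVV
    refine le_trans ?_ a2
    exact pow_le_pow_left₀ (norm_nonneg _) a1 2
  -- continuity of the inner integrals
  have c1 : Continuous (fun t => ∫ v in (-V)..V, P (t + v) * κ v) :=
    intervalIntegral.continuous_parametric_intervalIntegral_of_continuous' (by fun_prop) _ _
  have c2 : Continuous (fun t => ∫ v in (-V)..V, ‖P (t + v)‖ ^ 2 * ‖κ v‖) :=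
    intervalIntegral.continuous_parametric_intervalIntegral_of_continuous' (by fun_prop) _ _
  have h2 : ∫ t in A..B, ‖∫ v in (-V)..V, P (t + v) * κ v‖ ^ 2 ≤
      ∫ t in A..B, K * ∫ v in (-V)..V, ‖P (t + v)‖ ^ 2 * ‖κ v‖ :=
    intervalIntegral.integral_mono_on hAB ((c1.norm.pow 2).intervalIntegrable _ _)
      ((continuous_const.mul c2).intervalIntegrable _ _) (fun t _ => h1 t)
  refine h2.trans ?_
  rw [intervalIntegral.integral_const_mul]
  -- Fubini
  have h3 : ∫ t in A..B, ∫ v in (-V)..V, ‖P (t + v)‖ ^ 2 * ‖κ v‖ =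
      ∫ v in (-V)..V, ∫ t in A..B, ‖P (t + v)‖ ^ 2 * ‖κ v‖ := by
    refine MeasureTheory.intervalIntegral_intervalIntegral_swap ?_
    refine (ContinuousOn.integrableOn_compact (isCompact_uIcc.prod isCompact_uIcc)
      (Continuous.continuousOn ?_)).mono_set
      (Set.prod_mono Set.uIoc_subset_uIcc Set.uIoc_subset_uIcc)
    exact (by fun_prop : Continuous (fun q : ℝ × ℝ => ‖P (q.1 + q.2)‖ ^ 2 * ‖κ q.2‖))
  rw [h3]
  set J := ∫ u in (A - V)..(B + V), ‖P u‖ ^ 2 with hJ
  have h4 : ∀ v ∈ Set.Icc (-V) V, ∫ t in A..B, ‖P (t + v)‖ ^ 2 * ‖κ v‖ ≤ J * ‖κ v‖ := by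
    intro v hv
    rw [intervalIntegral.integral_mul_const]
    refine mul_le_mul_of_nonneg_right ?_ (norm_nonneg _)
    rw [intervalIntegral.integral_comp_add_right (fun u => ‖P u‖ ^ 2) v, hJ]
    refine intervalIntegral.integral_mono_interval (by linarith [hv.1]) (by linarith)
      (by linarith [hv.2]) (Filter.Eventually.of_forall fun u => by positivity) ?_
    exact (hP.norm.pow 2).intervalIntegrable _ _
  have c3 : Continuous (fun v => ∫ t in A..B, ‖P (t + v)‖ ^ 2 * ‖κ v‖) :=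
    intervalIntegral.continuous_parametric_intervalIntegral_of_continuous'
      (by fun_prop : Continuous (Function.uncurry fun v t : ℝ => ‖P (t + v)‖ ^ 2 * ‖κ v‖)) _ _
  have h5 : ∫ v in (-V)..V, ∫ t in A..B, ‖P (t + v)‖ ^ 2 * ‖κ v‖ ≤
      ∫ v in (-V)..V, J * ‖κ v‖ :=
    intervalIntegral.integral_mono_on hVV (c3.intervalIntegrable _ _)
      ((continuous_const.mul hκ.norm).intervalIntegrable _ _) h4
  rw [intervalIntegral.integral_const_mul, ← hK] at h5
  calc K * ∫ v in (-V)..V, ∫ t in A..B, ‖P (t + v)‖ ^ 2 * ‖κ v‖ ≤ K * (J * K) :=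
        mul_le_mul_of_nonneg_left h5 hK0
    _ = K ^ 2 * J := by ring

end Pool.Agent.helper84.DM
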